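import Pool.Agent.Helper8.UN.Stmts

/-! Module BON. -/

set_option autoImplicit false

open Finset

namespace Pool.Agent.Helper8.UN

open scoped Classical in
/-- proper colourings of `W` with colours in `A` -/
noncomputable def bon_CA {n : ℕ} (E : Finset (Finset (Fin n))) (W : Finset (Fin n))
    (A : Finset ℕ) : Finset (Fin n → ℕ) :=
  (Fintype.piFinset (fun v => if v ∈ W then A else {0})).filter (Prp E W)

theorem bon_mem {n : ℕ} {E : Finset (Finset (Fin n))} {W : Finset (Fin n)} {A : Finset ℕ}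
    {f : Fin n → ℕ} : f ∈ bon_CA E W A ↔ (∀ v ∈ W, f v ∈ A) ∧ (∀ v, v ∉ W → f v = 0) ∧
      Prp E W f := by
  simp only [bon_CA, Finset.mem_filter, Fintype.mem_piFinset]
  constructor
  · rintro ⟨h1, h2⟩
    refine ⟨fun v hv => ?_, fun v hv => ?_, h2⟩
    · have := h1 v
      rwa [if_pos hv] at this
    · have := h1 v
      rw [if_neg hv] at this
      exact Finset.mem_singleton.1 this
  · rintro ⟨h1, h2, h3⟩
    refine ⟨fun v => ?_, h3⟩
    by_cases hv : v ∈ W
    · rw [if_pos hv]; exact h1 v hv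
    · rw [if_neg hv]; exact Finset.mem_singleton.2 (h2 v hv)

theorem bon_CC {n : ℕ} (E : Finset (Finset (Fin n))) (W : Finset (Fin n)) (k : ℕ) :
    CC E W k = bon_CA E W (Finset.Icc 1 k) := rfl

/-- relabelling -/
theorem bon_rel {n : ℕ} (E : Finset (Finset (Fin n))) (W : Finset (Fin n)) (A B : Finset ℕ)
    (h : A.card = B.card) : (bon_CA E W A).card = (bon_CA E W B).card := by
  classical
  let e : A ≃ B := Finset.equivOfCardEq h
  let φ : ℕ → ℕ := fun x => if h : x ∈ A then (e ⟨x, h⟩ : ℕ) else 0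
  let ψ : ℕ → ℕ := fun x => if h : x ∈ B then (e.symm ⟨x, h⟩ : ℕ) else 0
  have hφ : ∀ x, ∀ h : x ∈ A, φ x = e ⟨x, h⟩ := fun x h => dif_pos h
  have hψ : ∀ x, ∀ h : x ∈ B, ψ x = e.symm ⟨x, h⟩ := fun x h => dif_pos h
  have hφB : ∀ x ∈ A, φ x ∈ B := fun x h => by rw [hφ x h]; exact (e ⟨x, h⟩).2
  have hψA : ∀ x ∈ B, ψ x ∈ A := fun x h => by rw [hψ x h]; exact (e.symm ⟨x, h⟩).2
  have hψφ : ∀ x ∈ A, ψ (φ x) = x := fun x h => by
    rw [hψ _ (hφB x h)]
    have : (⟨φ x, hφB x h⟩ : B) = e ⟨x, h⟩ := Subtype.ext (hφ x h)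
    rw [this, e.symm_apply_apply]
  have hφψ : ∀ x ∈ B, φ (ψ x) = x := fun x h => by
    rw [hφ _ (hψA x h)]
    have : (⟨ψ x, hψA x h⟩ : A) = e.symm ⟨x, h⟩ := Subtype.ext (hψ x h)
    rw [this, e.apply_symm_apply]
  refine Finset.card_nbij' (fun f v => if v ∈ W then φ (f v) else 0)
    (fun f v => if v ∈ W then ψ (f v) else 0) ?_ ?_ ?_ ?_
  · intro f hf
    obtain ⟨h1, h2, h3⟩ := bon_mem.1 (Finset.mem_coe.1 hf)
    refine Finset.mem_coe.2 (bon_mem.2 ⟨fun v hv => ?_, fun v hv => if_neg hv, fun t ht hts => ?_⟩)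
    · simp only [if_pos hv]
      exact hφB _ (h1 v hv)
    · obtain ⟨u, hu, v, hv, huv⟩ := h3 t ht hts
      refine ⟨u, hu, v, hv, fun hc => huv ?_⟩
      simp only [if_pos (hts hu), if_pos (hts hv)] at hc
      rw [← hψφ _ (h1 u (hts hu)), ← hψφ _ (h1 v (hts hv)), hc]
  · intro f hf
    obtain ⟨h1, h2, h3⟩ := bon_mem.1 (Finset.mem_coe.1 hf)
    refine Finset.mem_coe.2 (bon_mem.2 ⟨fun v hv => ?_, fun v hv => if_neg hv, fun t ht hts => ?_⟩)
    · simp only [if_pos hv]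
      exact hψA _ (h1 v hv)
    · obtain ⟨u, hu, v, hv, huv⟩ := h3 t ht hts
      refine ⟨u, hu, v, hv, fun hc => huv ?_⟩
      simp only [if_pos (hts hu), if_pos (hts hv)] at hc
      rw [← hφψ _ (h1 u (hts hu)), ← hφψ _ (h1 v (hts hv)), hc]
  · intro f hf
    obtain ⟨h1, h2, h3⟩ := bon_mem.1 (Finset.mem_coe.1 hf)
    funext v
    by_cases hv : v ∈ W
    · simp only [if_pos hv]
      exact hψφ _ (h1 v hv)
    · simp only [if_neg hv]
      exact (h2 v hv).symm
  · intro f hf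
    obtain ⟨h1, h2, h3⟩ := bon_mem.1 (Finset.mem_coe.1 hf)
    funext v
    by_cases hv : v ∈ W
    · simp only [if_pos hv]
      exact hφψ _ (h1 v hv)
    · simp only [if_neg hv]
      exact (h2 v hv).symm

open scoped Classical in
/-- unused colours -/
noncomputable def bon_un {n : ℕ} (W : Finset (Fin n)) (m : ℕ) (f : Fin n → ℕ) : Finset ℕ :=
  (Finset.Icc 1 m).filter (fun i => ∀ v ∈ W, f v ≠ i)

theorem bon_mem_un {n : ℕ} {W : Finset (Fin n)} {m : ℕ} {f : Fin n → ℕ} {i : ℕ} :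
    i ∈ bon_un W m f ↔ i ∈ Finset.Icc 1 m ∧ ∀ v ∈ W, f v ≠ i := by
  simp only [bon_un, Finset.mem_filter]

theorem bon_choose {n : ℕ} (E : Finset (Finset (Fin n))) (W : Finset (Fin n)) (m i : ℕ) :
    ∑ f ∈ CC E W m, (bon_un W m f).card.choose i = m.choose i * PP E W (m - i) := by
  classical
  have h1 : ∀ f ∈ CC E W m, (bon_un W m f).card.choose i =
      ∑ I ∈ Finset.powersetCard i (Finset.Icc 1 m), if I ⊆ bon_un W m f then 1 else 0 := by
    intro f _
    rw [← Finset.card_powersetCard, ← Finset.card_filter]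
    congr 1
    ext I
    simp only [Finset.mem_powersetCard, Finset.mem_filter]
    constructor
    · rintro ⟨a, b⟩
      exact ⟨⟨a.trans (fun x hx => (bon_mem_un.1 hx).1), b⟩, a⟩
    · rintro ⟨⟨a, b⟩, c⟩
      exact ⟨c, b⟩
  rw [Finset.sum_congr rfl h1, Finset.sum_comm]
  have h2 : ∀ I ∈ Finset.powersetCard i (Finset.Icc 1 m),
      ∑ f ∈ CC E W m, (if I ⊆ bon_un W m f then 1 else 0) = PP E W (m - i) := by
    intro I hI
    obtain ⟨hI1, hI2⟩ := Finset.mem_powersetCard.1 hI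
    rw [← Finset.card_filter]
    have h3 : (CC E W m).filter (fun f => I ⊆ bon_un W m f) =
        bon_CA E W (Finset.Icc 1 m \ I) := by
      ext f
      rw [Finset.mem_filter, bon_CC, bon_mem, bon_mem]
      constructor
      · rintro ⟨⟨a, b, c⟩, d⟩
        refine ⟨fun v hv => Finset.mem_sdiff.2 ⟨a v hv, fun hc => ?_⟩, b, c⟩
        exact (bon_mem_un.1 (d hc)).2 v hv rfl
      · rintro ⟨a, b, c⟩
        refine ⟨⟨fun v hv => (Finset.mem_sdiff.1 (a v hv)).1, b, c⟩, fun x hx => ?_⟩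
        refine bon_mem_un.2 ⟨hI1 hx, fun v hv hc => ?_⟩
        exact (Finset.mem_sdiff.1 (a v hv)).2 (hc ▸ hx)
    rw [h3]
    unfold PP
    rw [bon_CC]
    apply bon_rel
    rw [Finset.card_sdiff_of_subset hI1, hI2, Nat.card_Icc, Nat.card_Icc]
    omega
  rw [Finset.sum_congr rfl h2, Finset.sum_const, Finset.card_powersetCard, Nat.card_Icc,
    smul_eq_mul]
  simp

theorem bon_alt (t I : ℕ) : ∑ i ∈ Finset.range (I + 1), (-1 : ℝ) ^ i * ((t + 1).choose i : ℝ) =
    (-1) ^ I * (t.choose I : ℝ) := by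
  induction I with
  | zero => simp
  | succ I ih =>
    rw [Finset.sum_range_succ, ih, Nat.choose_succ_succ]
    push_cast
    ring

theorem bon_pt (u I : ℕ) : |(if u = 0 then (1 : ℝ) else 0) -
    ∑ i ∈ Finset.range I, (-1 : ℝ) ^ i * (u.choose i : ℝ)| ≤ (u.choose I : ℝ) := by
  rcases Nat.eq_zero_or_pos I with rfl | hI
  · simp only [Finset.range_zero, Finset.sum_empty, sub_zero, Nat.choose_zero_right, Nat.cast_one]
    split_ifs <;> simp
  · obtain ⟨J, rfl⟩ : ∃ J, I = J + 1 := ⟨I - 1, by omega⟩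
    rcases Nat.eq_zero_or_pos u with rfl | hu
    · have : ∑ i ∈ Finset.range (J + 1), (-1 : ℝ) ^ i * ((0 : ℕ).choose i : ℝ) = 1 := by
        rw [Finset.sum_range_succ']
        simp
      rw [this]
      simp
    · obtain ⟨t, rfl⟩ : ∃ t, u = t + 1 := ⟨u - 1, by omega⟩
      rw [bon_alt, if_neg (by omega), zero_sub, abs_neg, abs_mul, abs_pow, abs_neg, abs_one,
        one_pow, one_mul, Nat.abs_cast, Nat.choose_succ_succ]
      push_cast
      have : (0 : ℝ) ≤ (t.choose (J + 1) : ℝ) := Nat.cast_nonneg _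
      linarith

theorem st_BON : ST_BON := by
  classical
  intro n m I E W _
  have h1 : (AA E W m : ℝ) = ∑ f ∈ CC E W m, if (bon_un W m f).card = 0 then (1 : ℝ) else 0 := by
    unfold AA SS
    rw [Finset.card_filter]
    push_cast
    refine Finset.sum_congr rfl fun f _ => ?_
    congr 1
    rw [Finset.card_eq_zero, Finset.eq_empty_iff_forall_notMem]
    apply propext
    constructor
    · intro h i hi
      obtain ⟨h1, h2⟩ := bon_mem_un.1 hi
      obtain ⟨v, hv, hv2⟩ := h i h1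
      exact h2 v hv hv2
    · intro h i hi
      by_contra hc
      push Not at hc
      exact h i (bon_mem_un.2 ⟨hi, hc⟩)
  have h2 : ∀ i, ((m.choose i : ℝ) * PP E W (m - i)) =
      ∑ f ∈ CC E W m, ((bon_un W m f).card.choose i : ℝ) := by
    intro i
    rw [← Nat.cast_mul, ← bon_choose]
    push_cast
    rfl
  have h3 : ∑ i ∈ Finset.range I, (-1 : ℝ) ^ i * ((m.choose i : ℝ) * PP E W (m - i)) =
      ∑ f ∈ CC E W m, ∑ i ∈ Finset.range I, (-1 : ℝ) ^ i * ((bon_un W m f).card.choose i : ℝ) := by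
    rw [Finset.sum_comm]
    refine Finset.sum_congr rfl fun i _ => ?_
    rw [h2 i, Finset.mul_sum]
  rw [h1, h2 I, h3, ← Finset.sum_sub_distrib]
  exact (Finset.abs_sum_le_sum_abs _ _).trans (Finset.sum_le_sum fun f _ => bon_pt _ I)

end Pool.Agent.Helper8.UN
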