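import Pool.Agent.Helper8.UN.Stmts

/-! Module LNA. -/

set_option autoImplicit false

open Finset

namespace Pool.Agent.Helper8.UN

theorem lna_mem_CC {n k : ℕ} {E : Finset (Finset (Fin n))} {W : Finset (Fin n)}
    {f : Fin n → ℕ} : f ∈ CC E W k ↔ (∀ v ∈ W, f v ∈ Finset.Icc 1 k) ∧ (∀ v, v ∉ W → f v = 0) ∧
      Prp E W f := by
  simp only [CC, Finset.mem_filter, Fintype.mem_piFinset]
  constructor
  · rintro ⟨h1, h2⟩
    refine ⟨fun v hv => ?_, fun v hv => ?_, h2⟩
    · have := h1 v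
      rwa [if_pos hv] at this
    · have := h1 v
      rw [if_neg hv] at this
      exact Finset.mem_singleton.1 this
  · rintro ⟨h1, h2, h3⟩
    refine ⟨fun v => ?_, h3⟩
    by_cases hv : v ∈ W
    · rw [if_pos hv]; exact h1 v hv
    · rw [if_neg hv]; exact Finset.mem_singleton.2 (h2 v hv)

theorem lna_mem_SS {n k : ℕ} {E : Finset (Finset (Fin n))} {W : Finset (Fin n)}
    {f : Fin n → ℕ} : f ∈ SS E W k ↔ f ∈ CC E W k ∧ ∀ i ∈ Finset.Icc 1 k, ∃ v ∈ W, f v = i := by
  simp only [SS, Finset.mem_filter]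

open scoped Classical in
/-- the colouring of an ordered partition -/
noncomputable def lna_col {n k : ℕ} (c : Fin k → Finset (Fin n)) (v : Fin n) : ℕ :=
  if h : ∃ i, v ∈ c i then (h.choose : ℕ) + 1 else 0

theorem lna_col_eq {n k : ℕ} {c : Fin k → Finset (Fin n)}
    (hd : ∀ i j, i ≠ j → Disjoint (c i) (c j)) {v : Fin n} {i : Fin k} (h : v ∈ c i) :
    lna_col c v = (i : ℕ) + 1 := by
  have he : ∃ i, v ∈ c i := ⟨i, h⟩
  unfold lna_col
  rw [dif_pos he]
  by_cases hi : he.choose = i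
  · rw [hi]
  · exact absurd h (Finset.disjoint_left.1 (hd _ _ hi) he.choose_spec)

theorem st_LNA : ST_LNA := by
  classical
  intro n k E W hE
  unfold AA Pool.Agent.Helper89.UB.sur
  refine Finset.card_bij (fun f _ => fun i : Fin k => W.filter (fun v => f v = (i : ℕ) + 1)) ?_ ?_ ?_
  · intro f hf
    obtain ⟨hC, hS⟩ := lna_mem_SS.1 hf
    obtain ⟨h1, h2, h3⟩ := lna_mem_CC.1 hC
    unfold Pool.Agent.Helper89.UB.OP
    rw [Finset.mem_filter]
    refine ⟨Finset.mem_univ _, fun i => ?_, fun i j hij => ?_, fun v => ⟨fun hv => ?_, ?_⟩,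
      fun i e he hsub => ?_⟩
    · obtain ⟨v, hv, hv2⟩ := hS ((i : ℕ) + 1) (Finset.mem_Icc.2 ⟨by omega, i.2⟩)
      exact ⟨v, Finset.mem_filter.2 ⟨hv, hv2⟩⟩
    · rw [Finset.disjoint_left]
      intro v hv hv2
      have a1 := (Finset.mem_filter.1 hv).2
      have a2 := (Finset.mem_filter.1 hv2).2
      exact hij (Fin.ext (by omega))
    · have h4 := Finset.mem_Icc.1 (h1 v hv)
      exact ⟨⟨f v - 1, by omega⟩, Finset.mem_filter.2 ⟨hv, by simp only; omega⟩⟩
    · rintro ⟨i, hi⟩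
      exact (Finset.mem_filter.1 hi).1
    · obtain ⟨u, hu, v, hv, huv⟩ := h3 e he (hsub.trans (Finset.filter_subset _ _))
      exact huv ((Finset.mem_filter.1 (hsub hu)).2.trans (Finset.mem_filter.1 (hsub hv)).2.symm)
  · intro f hf g hg hfg
    obtain ⟨hC, hS⟩ := lna_mem_SS.1 hf
    obtain ⟨h1, h2, h3⟩ := lna_mem_CC.1 hC
    obtain ⟨hC', hS'⟩ := lna_mem_SS.1 hg
    obtain ⟨h1', h2', h3'⟩ := lna_mem_CC.1 hC'
    funext v
    by_cases hv : v ∈ W
    · have h4 := Finset.mem_Icc.1 (h1 v hv)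
      have h5 := congrFun hfg ⟨f v - 1, by omega⟩
      have h6 : v ∈ W.filter (fun v' => f v' = (f v - 1) + 1) :=
        Finset.mem_filter.2 ⟨hv, by omega⟩
      have h7 : v ∈ W.filter (fun v' => g v' = (f v - 1) + 1) := by
        have h8 : W.filter (fun v' => f v' = (f v - 1) + 1) =
          W.filter (fun v' => g v' = (f v - 1) + 1) := h5
        rw [← h8]; exact h6
      have h9 := (Finset.mem_filter.1 h7).2
      omega
    · rw [h2 v hv, h2' v hv]
  · intro c hc
    unfold Pool.Agent.Helper89.UB.OP at hc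
    obtain ⟨-, hne, hdis, hW, hAl⟩ := Finset.mem_filter.1 hc
    have hcol : ∀ v i, v ∈ c i → lna_col c v = (i : ℕ) + 1 := fun v i => lna_col_eq hdis
    have hcol0 : ∀ v, v ∉ W → lna_col c v = 0 := by
      intro v hv
      unfold lna_col
      rw [dif_neg]
      intro h
      exact hv ((hW v).2 h)
    refine ⟨lna_col c, lna_mem_SS.2 ⟨lna_mem_CC.2 ⟨fun v hv => ?_, hcol0, fun e he hsub => ?_⟩,
      fun i hi => ?_⟩, ?_⟩
    · obtain ⟨i, hi⟩ := (hW v).1 hv
      rw [hcol v i hi, Finset.mem_Icc]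
      exact ⟨by omega, i.2⟩
    · by_contra hcon
      push Not at hcon
      have hene : e.Nonempty := by
        rw [← Finset.card_pos]
        have := hE e he
        omega
      obtain ⟨u, hu⟩ := hene
      obtain ⟨i, hi⟩ := (hW u).1 (hsub hu)
      apply hAl i e he
      intro v hv
      obtain ⟨j, hj⟩ := (hW v).1 (hsub hv)
      have h1 := hcon u hu v hv
      rw [hcol u i hi, hcol v j hj] at h1
      have h2 : i = j := Fin.ext (by omega)
      rw [h2]; exact hj
    · have h4 := Finset.mem_Icc.1 hi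
      obtain ⟨v, hv⟩ := hne ⟨i - 1, by omega⟩
      refine ⟨v, (hW v).2 ⟨_, hv⟩, ?_⟩
      rw [hcol v _ hv]
      simp only
      omega
    · funext i
      ext v
      rw [Finset.mem_filter]
      constructor
      · rintro ⟨hv, h1⟩
        obtain ⟨j, hj⟩ := (hW v).1 hv
        rw [hcol v j hj] at h1
        have h2 : j = i := Fin.ext (by omega)
        rw [← h2]; exact hj
      · intro hv
        exact ⟨(hW v).2 ⟨i, hv⟩, hcol v i hv⟩

end Pool.Agent.Helper8.UN
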